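import Mathlib
import Pool.Agent.H35.LTEx5
import Pool.Agent.H43.LT.Sym

set_option autoImplicit false

namespace Pool.Agent.Results.MP_fc3421_co.Classification

open Pool.Agent.H35.LT

/-- Let `s ≠ u` be odd integers `≥ 3` and
`UnivGroup s u = [4,4,4] / ⟨⟨(ρ₀ρ₁ρ₂ρ₁)^s, (ρ₁ρ₂ρ₃ρ₂)^u⟩⟩`.
Then `UnivGroup s u` is a string C-group (its four generators are involutions and it has the
intersection property), its facet subgroup `⟨ρ₀,ρ₁,ρ₂⟩` is the full group of the torus map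
`{4,4}_(s,0)`, its vertex-figure subgroup `⟨ρ₁,ρ₂,ρ₃⟩` is the full group of `{4,4}_(u,0)`
(so the universal polytope `{{4,4}_(s,0),{4,4}_(u,0)}` exists), and it is finite if and only if
`(s,u) = (3,5)` or `(s,u) = (5,3)`. -/
theorem result (s u : ℕ) (hs : Odd s) (hs3 : 3 ≤ s) (hu : Odd u) (hu3 : 3 ≤ u) (hsu : s ≠ u) :
    ((∀ i : Fin 4, rho s u i ≠ 1 ∧ rho s u i ^ 2 = 1) ∧
    (∀ I J : Set (Fin 4), Subgroup.closure (rho s u '' I) ⊓ Subgroup.closure (rho s u '' J) =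
      Subgroup.closure (rho s u '' (I ∩ J))) ∧
    Function.Injective (facetHom s u) ∧
    Function.Injective (vfigHom s u)) ∧
    (Finite (UnivGroup s u) ↔ (s = 3 ∧ u = 5) ∨ (s = 5 ∧ u = 3)) := by
  obtain ⟨D⟩ := repData_exists s u hs hs3 hu hu3
  exact ⟨⟨fun i => ⟨rho_ne_one s u hs hs3 hu hu3 i, by rw [sq]; exact rho_sq s u i⟩,
    intersection_property s u hs hs3 hu hu3, facetHom_injective D hs, vfigHom_injective D hu⟩,
    Pool.Agent.H43.LT.finite_iff s u hs hs3 hu hu3 hsu⟩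

end Pool.Agent.Results.MP_fc3421_co.Classification
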